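import Pool.Agent.Helper92.LP.Final

/-!
The chain bound for mixed moments `N(j,k)` of a density: the boundary values at `j = K + 1` need
not vanish, they only have to be below the bound.
-/

set_option autoImplicit false

namespace Pool.Agent.Helper12.KB

open Pool.Agent.Helper92.LP

/-- the two step wave equation -/
def Wave2 (D : ℝ) (N : ℕ → ℕ → ℝ) : Prop :=
  ∀ j k, cA D k * cA D (k + 1) * N j (k + 2) + cc D k * N j k
      + cB D k * cB D (k - 1) * N j (k - 2)
      = cA D j * cA D (j + 1) * N (j + 2) k + cc D j * N j k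
      + cB D j * cB D (j - 1) * N (j - 2) k

/-- The chain bound with boundary values. -/
theorem chainB {D : ℝ} (hD : 2 ≤ D) {K : ℕ} (hK1 : 2 ≤ K) {N : ℕ → ℕ → ℝ} (hw2 : Wave2 D N)
    {B : ℝ} (hB : 0 ≤ B) {τ : ℝ} (hτ : 0 < τ) (S U : ℕ → ℝ) (M : ℕ)
    (hUpos : ∀ s, 0 < U s)
    (hU : ∀ s, U (s + 1) = S s * U s)
    (hrec : ∀ s, s < M → (τ ^ 2 + cc D (K + 1 + 2 * s)) * S s
        + cB D (K + 1 + 2 * s) * cB D (K + 2 * s)
      ≤ cA D (K + 1 + 2 * s) * cA D (K + 2 + 2 * s) * (S (s + 1) * S s))
    (h0 : ∀ j, j < K → |N j (K - 1)| ≤ B * (U 0 * H D τ j))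
    (h1 : ∀ j, j < K → |N j (K + 1)| ≤ B * (U 1 * H D τ j))
    (hb : ∀ s, s ≤ M → |N K (K + 1 + 2 * s)| ≤ B * (U (s + 1) * H D τ K) ∧
      |N (K + 1) (K + 1 + 2 * s)| ≤ B * (U (s + 1) * H D τ (K + 1))) :
    ∀ s, s ≤ M + 1 → ∀ j, j < K → |N j (K - 1 + 2 * s)| ≤ B * (U s * H D τ j) := by
  have hD0 : 0 < D := by linarith
  intro s
  induction s using Nat.strong_induction_on with
  | _ s ih =>
    intro hs j hj
    rcases s with _ | _ | s
    · simpa using h0 j hj
    · have e : K - 1 + 2 * (0 + 1) = K + 1 := by omega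
      rw [e]
      exact h1 j hj
    · have hk : K - 1 + 2 * (s + 1) = K + 1 + 2 * s := by omega
      have hk2 : K - 1 + 2 * (s + 1 + 1) = K + 1 + 2 * s + 2 := by omega
      have hk0 : K - 1 + 2 * s = K + 1 + 2 * s - 2 := by omega
      have ih1 := ih (s + 1) (by omega) (by omega)
      have ih0 := ih s (by omega) (by omega)
      rw [hk] at ih1
      rw [hk0] at ih0
      rw [hk2]
      have hb' := hb s (by omega)
      set k := K + 1 + 2 * s with hkdef
      have hw := hw2 j k
      have hcc : cc D j ≤ cc D k := cc_mono hD (by omega)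
      have hAk := cA_pos hD0 k
      have hAk1 := cA_pos hD0 (k + 1)
      have hAj := cA_pos hD0 j
      have hAj1 := cA_pos hD0 (j + 1)
      have hBj := cB_nonneg hD0 j
      have hBj1 := cB_nonneg hD0 (j - 1)
      have hBk := cB_nonneg hD0 k
      have hBk1 := cB_nonneg hD0 (k - 1)
      have x1 : |N (j + 2) k| ≤ B * (U (s + 1) * H D τ (j + 2)) := by
        by_cases c1 : j + 2 < K
        · exact ih1 _ c1
        · by_cases c2 : j + 2 = K
          · rw [c2]; exact hb'.1
          · have c3 : j + 2 = K + 1 := by omega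
            rw [c3]; exact hb'.2
      have x2 := ih1 j hj
      have x3 : cB D j * cB D (j - 1) * |N (j - 2) k|
          ≤ cB D j * cB D (j - 1) * (B * (U (s + 1) * H D τ (j - 2))) :=
        mul_le_mul_of_nonneg_left (ih1 (j - 2) (by omega)) (mul_nonneg hBj hBj1)
      have x4 := ih0 j hj
      have hH2 := H_mul2 hD0 τ j
      have hr := hrec s (by omega)
      have hkm : k - 1 = K + 2 * s := by omega
      have hkp : k + 1 = K + 2 + 2 * s := by omega
      rw [← hkm, ← hkp] at hr
      have hHj := H_pos hD0 hτ j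
      have eq1 : cA D k * cA D (k + 1) * N j (k + 2)
          = cA D j * cA D (j + 1) * N (j + 2) k + cB D j * cB D (j - 1) * N (j - 2) k
            - (cc D k - cc D j) * N j k - cB D k * cB D (k - 1) * N j (k - 2) := by
        linarith
      have b1 : cA D k * cA D (k + 1) * |N j (k + 2)|
          ≤ cA D j * cA D (j + 1) * |N (j + 2) k|
            + cB D j * cB D (j - 1) * |N (j - 2) k|
            + (cc D k - cc D j) * |N j k| + cB D k * cB D (k - 1) * |N j (k - 2)| := by
        have e0 : cA D k * cA D (k + 1) * |N j (k + 2)|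
            = |cA D k * cA D (k + 1) * N j (k + 2)| := by
          rw [abs_mul, abs_of_pos (mul_pos hAk hAk1)]
        rw [e0, eq1]
        have t1 : |cA D j * cA D (j + 1) * N (j + 2) k|
            = cA D j * cA D (j + 1) * |N (j + 2) k| := by
          rw [abs_mul, abs_of_pos (mul_pos hAj hAj1)]
        have t2 : |cB D j * cB D (j - 1) * N (j - 2) k|
            = cB D j * cB D (j - 1) * |N (j - 2) k| := by
          rw [abs_mul, abs_of_nonneg (mul_nonneg hBj hBj1)]
        have t3 : |(cc D k - cc D j) * N j k| = (cc D k - cc D j) * |N j k| := by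
          rw [abs_mul, abs_of_nonneg (sub_nonneg.2 hcc)]
        have t4 : |cB D k * cB D (k - 1) * N j (k - 2)|
            = cB D k * cB D (k - 1) * |N j (k - 2)| := by
          rw [abs_mul, abs_of_nonneg (mul_nonneg hBk hBk1)]
        rw [← t1, ← t2, ← t3, ← t4]
        refine (abs_sub _ _).trans (add_le_add ?_ le_rfl)
        refine (abs_sub _ _).trans (add_le_add ?_ le_rfl)
        exact abs_add_le _ _
      have y1 : cA D j * cA D (j + 1) * |N (j + 2) k|
          ≤ cA D j * cA D (j + 1) * (B * (U (s + 1) * H D τ (j + 2))) :=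
        mul_le_mul_of_nonneg_left x1 (mul_pos hAj hAj1).le
      have y2 : (cc D k - cc D j) * |N j k| ≤ (cc D k - cc D j) * (B * (U (s + 1) * H D τ j)) :=
        mul_le_mul_of_nonneg_left x2 (sub_nonneg.2 hcc)
      have y4 : cB D k * cB D (k - 1) * |N j (k - 2)|
          ≤ cB D k * cB D (k - 1) * (B * (U s * H D τ j)) :=
        mul_le_mul_of_nonneg_left x4 (mul_nonneg hBk hBk1)
      have z1 : cA D k * cA D (k + 1) * |N j (k + 2)|
          ≤ B * (((τ ^ 2 + cc D k) * U (s + 1) + cB D k * cB D (k - 1) * U s) * H D τ j) := by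
        have e3 : B * (((τ ^ 2 + cc D k) * U (s + 1) + cB D k * cB D (k - 1) * U s) * H D τ j)
            = B * U (s + 1) * (τ ^ 2 * H D τ j) + B * (cc D k * U (s + 1) * H D τ j)
              + B * (cB D k * cB D (k - 1) * U s * H D τ j) := by ring
        rw [e3, hH2]
        nlinarith [b1, y1, y2, x3, y4]
      have z2 : (τ ^ 2 + cc D k) * U (s + 1) + cB D k * cB D (k - 1) * U s
          ≤ cA D k * cA D (k + 1) * U (s + 1 + 1) := by
        rw [hU (s + 1), hU s]
        have := mul_le_mul_of_nonneg_right hr (hUpos s).le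
        calc _ = ((τ ^ 2 + cc D k) * S s + cB D k * cB D (k - 1)) * U s := by ring
          _ ≤ _ := this
          _ = _ := by ring
      have z3 : cA D k * cA D (k + 1) * |N j (k + 2)|
          ≤ cA D k * cA D (k + 1) * (B * (U (s + 1 + 1) * H D τ j)) := by
        refine z1.trans ((mul_le_mul_of_nonneg_left
          (mul_le_mul_of_nonneg_right z2 hHj.le) hB).trans (le_of_eq (by ring)))
      exact le_of_mul_le_mul_left z3 (mul_pos hAk hAk1)

end Pool.Agent.Helper12.KB
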