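import Pool.Agent.Helper12.KB.Mom
import Pool.Agent.Helper92.TP.Dual

/-!
The Gegenbauer coefficients of an even bounded density with exact moments up to degree `20 m`,
where `130 m ≤ d - 2 ≤ 130 m + 130`, are at most `B 2^(-0.38 d) / 4`.
-/

set_option autoImplicit false

open MeasureTheory Set Metric Polynomial
open scoped Real

namespace Pool.Agent.Helper12.KB

open Pool.Agent.Helper47.KP (den)
open Pool.Agent.Helper92.LP (cA cB cc nn G H G_mul2 cA_pos cB_nonneg nn_pos cA_add_cB cB_le_half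
  H_pos H_mul SU U_rec nn_bound H_bound S_prod PP_bound PP_nonneg num2)

lemma half_le_cA {D : ℝ} (hD : 0 < D) (j : ℕ) : 1 / 2 ≤ cA D j := by
  have h1 := cA_add_cB hD j
  have h2 := cB_le_half hD j
  linarith

lemma nn_anti_succ {D : ℝ} (hD : 0 < D) (k : ℕ) : nn D (k + 1) ≤ nn D k := by
  have h : nn D (k + 1) = nn D k * cB D (k + 1) / cA D k := rfl
  rw [h, div_le_iff₀ (cA_pos hD k)]
  apply mul_le_mul_of_nonneg_left _ (nn_pos hD k).le
  exact (cB_le_half hD _).trans (half_le_cA hD k)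

lemma nn_anti {D : ℝ} (hD : 0 < D) {j k : ℕ} (h : j ≤ k) : nn D k ≤ nn D j := by
  induction k, h using Nat.le_induction with
  | base => exact le_rfl
  | succ k _ ih => exact (nn_anti_succ hD k).trans ih

lemma nn_le_PP {D : ℝ} (hD : 0 < D) {K : ℕ} (hK : 1 ≤ K) (k : ℕ) (hk : K ≤ k) :
    nn D k * ((K : ℝ) - 1 + D) ≤
      ((k : ℝ) + D) * (Pool.Agent.Helper92.LP.PP D K k * nn D (K - 1)) := by
  have hK' : (1 : ℝ) ≤ K := by exact_mod_cast hK
  induction k, hk using Nat.le_induction with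
  | base =>
    have e : Pool.Agent.Helper92.LP.PP D K K = 1 := by
      simp [Pool.Agent.Helper92.LP.PP]
    rw [e, one_mul]
    obtain ⟨L, rfl⟩ : ∃ L, K = L + 1 := ⟨K - 1, by omega⟩
    have h1 := nn_anti_succ hD L
    have h2 := nn_pos hD L
    have h3 := nn_pos hD (L + 1)
    rw [Nat.add_sub_cancel]
    push_cast at hK' ⊢
    nlinarith
  | succ k hk ih =>
    rw [Pool.Agent.Helper92.LP.PP_succ hk]
    have hk0 : (0 : ℝ) ≤ k := Nat.cast_nonneg k
    have h1 : nn D (k + 1) * ((k : ℝ) + D) ≤ nn D k * (k + 1) := by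
      have h : nn D (k + 1) = nn D k * cB D (k + 1) / cA D k := rfl
      rw [h, cA, cB]
      have hn := nn_pos hD k
      push_cast
      have e : nn D k * (((k : ℝ) + 1) / (2 * (k + 1) + D)) / (((k : ℝ) + D) / (2 * k + D)) * (k + D)
          = nn D k * (k + 1) * ((2 * k + D) / (2 * (k + 1) + D)) := by
        field_simp
      rw [e]
      apply mul_le_of_le_one_right (by positivity)
      rw [div_le_one (by positivity)]
      linarith
    have hp : 0 < (k : ℝ) + D := by positivity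
    have hK0 : 0 ≤ (K : ℝ) - 1 + D := by linarith
    have h2 : (nn D (k + 1) * ((K : ℝ) - 1 + D)) * (k + D) ≤
        (((k : ℝ) + 1) * (Pool.Agent.Helper92.LP.PP D K k * nn D (K - 1))) * (k + D) := by
      calc (nn D (k + 1) * ((K : ℝ) - 1 + D)) * (k + D)
          = (nn D (k + 1) * (k + D)) * ((K : ℝ) - 1 + D) := by ring
        _ ≤ (nn D k * (k + 1)) * ((K : ℝ) - 1 + D) := mul_le_mul_of_nonneg_right h1 hK0
        _ = (nn D k * ((K : ℝ) - 1 + D)) * (k + 1) := by ring
        _ ≤ (((k : ℝ) + D) * (Pool.Agent.Helper92.LP.PP D K k * nn D (K - 1))) * (k + 1) :=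
            mul_le_mul_of_nonneg_right ih (by positivity)
        _ = _ := by ring
    have h3 := le_of_mul_le_mul_right h2 hp
    refine h3.trans (le_of_eq ?_)
    push_cast
    have : (k : ℝ) + 1 + D ≠ 0 := by positivity
    field_simp

/-- small ratio -/
lemma cB_small {D : ℝ} {m : ℕ} (hm : 1 ≤ m) (h1 : 130 * (m : ℝ) ≤ D) {k : ℕ} (hk : k ≤ 27 * m)
    (j : ℕ) : cB D k ≤ 3 / 10 * cA D j := by
  have hmR : (1 : ℝ) ≤ m := by exact_mod_cast hm
  have hD : 0 < D := by linarith
  have hkR : (k : ℝ) ≤ 27 * m := by exact_mod_cast hk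
  have h2 := half_le_cA hD j
  have h3 : cB D k ≤ 3 / 20 := by
    unfold cB
    rw [div_le_iff₀ (by positivity)]
    linarith
  linarith

/-- two steps of the norm -/
lemma nn_two {D : ℝ} {m : ℕ} (hm : 1 ≤ m) (h1 : 130 * (m : ℝ) ≤ D) {k : ℕ} (hk : k + 2 ≤ 27 * m) :
    nn D (k + 2) ≤ 9 / 100 * nn D k := by
  have hmR : (1 : ℝ) ≤ m := by exact_mod_cast hm
  have hD : 0 < D := by linarith
  have h : ∀ k, k + 1 ≤ 27 * m → nn D (k + 1) ≤ 3 / 10 * nn D k := by
    intro k hk
    have e : nn D (k + 1) = nn D k * cB D (k + 1) / cA D k := rfl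
    rw [e, div_le_iff₀ (cA_pos hD k)]
    have h2 := cB_small hm h1 hk k
    have h3 := nn_pos hD k
    nlinarith
  have a := h k (by omega)
  have b := h (k + 1) (by omega)
  have : nn D (k + 2) = nn D (k + 1 + 1) := rfl
  rw [this]
  linarith

section

variable {D : ℝ} {m : ℕ}

/-- the bounding sequence -/
noncomputable def Us (D : ℝ) (m s : ℕ) : ℝ := nn D (10 * m - 2) / H D (7 / 10) (10 * m - 2)
  * ∏ l ∈ Finset.range s, SU D (10 * m - 2 + 2 * l)

lemma SU_pos (hD : 0 < D) (k : ℕ) : 523 / 1000 ≤ SU D k := by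
  unfold SU
  have : 0 ≤ (k : ℝ) / D := by positivity
  linarith

lemma Us_pos (hD : 0 < D) (s : ℕ) : 0 < Us D m s := by
  unfold Us
  apply mul_pos (div_pos (nn_pos hD _) (H_pos hD (by norm_num) _))
  apply Finset.prod_pos
  intro l _
  have := SU_pos hD (10 * m - 2 + 2 * l)
  linarith

lemma Us_succ (D : ℝ) (m s : ℕ) : Us D m (s + 1) = SU D (10 * m - 2 + 2 * s) * Us D m s := by
  unfold Us
  rw [Finset.prod_range_succ]
  ring

/-- the boundary values are below the bound -/
lemma boundary (hm : 2 ≤ m) (h1 : 130 * (m : ℝ) ≤ D) (s : ℕ) (hs : s ≤ 8 * m) :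
    nn D (10 * m) * nn D (10 * m + 2 * s) ≤ (Us D m (s + 1) * H D (7 / 10) (10 * m)) ^ 2 := by
  have hmR : (2 : ℝ) ≤ m := by exact_mod_cast hm
  have hD : 0 < D := by linarith
  have hHp := H_pos hD (show (0 : ℝ) < 7 / 10 by norm_num)
  induction s with
  | zero =>
    rw [Nat.mul_zero, Nat.add_zero]
    have hU1 : Us D m (0 + 1) = SU D (10 * m - 2) *
        (nn D (10 * m - 2) / H D (7 / 10) (10 * m - 2)) := by
      rw [Us_succ]; simp [Us]
    obtain ⟨L, hL⟩ : ∃ L, 10 * m = L + 2 := ⟨10 * m - 2, by omega⟩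
    have hL2 : 10 * m - 2 = L := by omega
    rw [hU1, hL2, hL]
    have e1 : nn D (L + 2) = nn D (L + 1) * cB D (L + 2) / cA D (L + 1) := rfl
    have e2 : nn D (L + 1) = nn D L * cB D (L + 1) / cA D L := rfl
    have a0 := cA_pos hD L
    have a1 := cA_pos hD (L + 1)
    have b1 := cB_nonneg hD (L + 1)
    have b2 := cB_nonneg hD (L + 2)
    have n0 := nn_pos hD L
    have hH1 : cB D (L + 1) * H D (7 / 10) L ≤ cA D (L + 1) * H D (7 / 10) (L + 2) := by
      have h := H_mul hD (7 / 10) (L + 1)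
      simp only [Nat.add_sub_cancel] at h
      have h2 := hHp (L + 1)
      have : cA D (L + 1) * H D (7 / 10) (L + 1 + 1)
        = 7 / 10 * H D (7 / 10) (L + 1) + cB D (L + 1) * H D (7 / 10) L := by linarith
      show _ ≤ cA D (L + 1) * H D (7 / 10) (L + 1 + 1)
      rw [this]; linarith
    have hS := SU_pos hD L
    have hsm : cB D (L + 2) ≤ 3 / 10 * cA D L := cB_small (by omega) h1 (by omega) L
    have hH0 := hHp L
    have hH2 := hHp (L + 2)
    have key : nn D (L + 2) ≤ SU D L * (nn D L / H D (7 / 10) L) * H D (7 / 10) (L + 2) := by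
      rw [e1, e2]
      have t1 : nn D L * cB D (L + 1) / cA D L * cB D (L + 2) / cA D (L + 1)
          = nn D L * (cB D (L + 1) / cA D (L + 1)) * (cB D (L + 2) / cA D L) := by
        field_simp
      rw [t1]
      have t2 : cB D (L + 1) / cA D (L + 1) ≤ H D (7 / 10) (L + 2) / H D (7 / 10) L := by
        rw [div_le_div_iff₀ a1 hH0]
        linarith
      have t3 : cB D (L + 2) / cA D L ≤ SU D L := by
        rw [div_le_iff₀ a0]
        nlinarith
      have t4 : 0 ≤ cB D (L + 2) / cA D L := by positivity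
      have t5 : 0 ≤ H D (7 / 10) (L + 2) / H D (7 / 10) L := by positivity
      calc nn D L * (cB D (L + 1) / cA D (L + 1)) * (cB D (L + 2) / cA D L)
          ≤ nn D L * (H D (7 / 10) (L + 2) / H D (7 / 10) L) * SU D L := by
            apply mul_le_mul _ t3 t4 (by positivity)
            exact mul_le_mul_of_nonneg_left t2 n0.le
        _ = _ := by ring
    have n2 := nn_pos hD (L + 2)
    calc nn D (L + 2) * nn D (L + 2) = nn D (L + 2) ^ 2 := by ring
      _ ≤ _ := pow_le_pow_left₀ n2.le key 2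
  | succ s ih =>
    have ih' := ih (by omega)
    have e : 10 * m + 2 * (s + 1) = (10 * m + 2 * s) + 2 := by ring
    rw [e, Us_succ D m (s + 1)]
    have h2 := nn_two (D := D) (m := m) (by omega) h1 (k := 10 * m + 2 * s) (by omega)
    have h3 := SU_pos hD (10 * m - 2 + 2 * (s + 1))
    have n0 := nn_pos hD (10 * m)
    set S := SU D (10 * m - 2 + 2 * (s + 1))
    have hS2 : 9 / 100 ≤ S ^ 2 := by nlinarith
    calc nn D (10 * m) * nn D (10 * m + 2 * s + 2)
        ≤ nn D (10 * m) * (9 / 100 * nn D (10 * m + 2 * s)) :=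
          mul_le_mul_of_nonneg_left h2 n0.le
      _ = 9 / 100 * (nn D (10 * m) * nn D (10 * m + 2 * s)) := by ring
      _ ≤ S ^ 2 * (Us D m (s + 1) * H D (7 / 10) (10 * m)) ^ 2 :=
          mul_le_mul hS2 ih' (by have := nn_pos hD (10 * m + 2 * s); positivity) (by positivity)
      _ = _ := by ring

end

end Pool.Agent.Helper12.KB
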