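import Pool.Agent.Helper12.KB.Coef

/-!
The coefficient bound.
-/

set_option autoImplicit false

open MeasureTheory Set Metric Polynomial
open scoped Real

namespace Pool.Agent.Helper12.KB

open Pool.Agent.Helper47.KP (den)
open Pool.Agent.Helper92.LP (cA cB cc nn G H G_mul2 cA_pos cB_nonneg nn_pos cA_add_cB cB_le_half
  H_pos H_mul SU U_rec nn_bound H_bound S_prod PP_bound PP_nonneg num2)

/-- the coefficients up to `26 m` -/
lemma coef_low {d : ℕ} [NeZero d] (hd : 3 ≤ d) {m : ℕ} (hm : 425 ≤ m)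
    (h1 : 130 * (m : ℝ) ≤ (d : ℝ) - 2) (h2 : (d : ℝ) - 2 ≤ 130 * m + 130)
    {g : ℝ → ℝ} (hg : Measurable g) (h0 : ∀ t, 0 ≤ g t) {B : ℝ} (hB1 : 1 ≤ B) (hB : ∀ t, g t ≤ B)
    (he : ∀ t, g (-t) = g t) {n : ℕ} (hn : 20 * m ≤ n)
    (hex : ∀ f : ℝ[X], f.natDegree ≤ n → ∫ t, g t * f.eval t ∂(den d) = ∫ t, f.eval t ∂(den d))
    (s : ℕ) (hs : s ≤ 8 * m + 1) :
    |Nm d g 0 (10 * m - 2 + 2 * s)| ≤ B * Us ((d : ℝ) - 2) m s := by
  have hmR : (425 : ℝ) ≤ m := by exact_mod_cast hm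
  set D := (d : ℝ) - 2 with hDdef
  have hD : 10000 ≤ D := by nlinarith
  have hD0 : 0 < D := by linarith
  have hgB : ∀ t, |g t| ≤ B := fun t => by rw [abs_of_nonneg (h0 t)]; exact hB t
  have hB0 : 0 ≤ B := by linarith
  have e2 : 10 * m - 1 - 1 = 10 * m - 2 := by omega
  have hexact : ∀ j k, j + k ≤ n → Nm d g j k = if j = k then nn D j else 0 :=
    fun j k h => Nm_exact hd hex h
  have key := chainB (D := D) (by linarith) (K := 10 * m - 1) (by omega)
    (Nm_wave2 hd hg hgB) hB0 (τ := 7 / 10) (by norm_num)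
    (fun s => SU D (10 * m - 2 + 2 * s)) (fun s => Us D m s) (8 * m)
    (fun s => Us_pos hD0 s) (fun s => Us_succ D m s) (by
      intro s hs
      have hk : 10 * m - 1 + 1 + 2 * s = (10 * m - 2 + 2 * s) + 2 := by omega
      have hk1 : 10 * m - 1 + 2 * s = (10 * m - 2 + 2 * s) + 1 := by omega
      have hk3 : 10 * m - 1 + 2 + 2 * s = (10 * m - 2 + 2 * s) + 3 := by omega
      have hk4 : 10 * m - 2 + 2 * (s + 1) = (10 * m - 2 + 2 * s) + 2 := by ring
      have hc : (((10 * m - 2 + 2 * s) + 2 : ℕ) : ℝ) = 10 * m + 2 * s := by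
        have : (10 * m - 2 + 2 * s) + 2 = 10 * m + 2 * s := by omega
        rw [this]; push_cast; ring
      have hsR : (s : ℝ) ≤ 8 * m - 1 := by
        have : s + 1 ≤ 8 * m := hs
        have : ((s + 1 : ℕ) : ℝ) ≤ ((8 * m : ℕ) : ℝ) := by exact_mod_cast this
        push_cast at this; linarith
      have hs0 : (0 : ℝ) ≤ s := Nat.cast_nonneg s
      simp only [hk, hk1, hk3, hk4]
      refine U_rec hD (10 * m - 2 + 2 * s) ?_ ?_
      · rw [hc, le_div_iff₀ hD0]
        nlinarith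
      · rw [hc, div_le_iff₀ hD0]
        nlinarith) (by
      intro j hj
      rw [e2, hexact j (10 * m - 2) (by omega)]
      have hU0 : Us D m 0 = nn D (10 * m - 2) / H D (7 / 10) (10 * m - 2) := by simp [Us]
      simp only [hU0]
      have hn0 := nn_pos hD0 (10 * m - 2)
      have hHp := H_pos hD0 (show (0 : ℝ) < 7 / 10 by norm_num)
      by_cases hjk : j = 10 * m - 2
      · rw [if_pos hjk, hjk, abs_of_pos hn0, div_mul_cancel₀ _ (hHp _).ne']
        nlinarith
      · rw [if_neg hjk, abs_zero]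
        have := hHp j
        have := hHp (10 * m - 2)
        positivity) (by
      intro j hj
      have : 10 * m - 1 + 1 = 10 * m := by omega
      rw [this, hexact j (10 * m) (by omega), if_neg (by omega), abs_zero]
      have := H_pos hD0 (show (0 : ℝ) < 7 / 10 by norm_num) j
      have := Us_pos (m := m) hD0 1
      positivity) (by
      intro s hs
      have hk : 10 * m - 1 + 1 + 2 * s = 10 * m + 2 * s := by omega
      have hk1 : 10 * m - 1 + 1 = 10 * m := by omega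
      have hHp := H_pos hD0 (show (0 : ℝ) < 7 / 10 by norm_num)
      have hUp := Us_pos (m := m) hD0 (s + 1)
      constructor
      · rw [hk, Nm_odd hd he (by
          rw [Nat.odd_iff]; omega), abs_zero]
        have := hHp (10 * m - 1)
        positivity
      · rw [hk, hk1]
        refine (abs_Nm_le hd hg h0 hB _ _).trans ?_
        apply mul_le_mul_of_nonneg_left _ hB0
        have hb := boundary (D := D) (m := m) (by omega) h1 s hs
        have hpos : 0 ≤ Us D m (s + 1) * H D (7 / 10) (10 * m) := by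
          have := hHp (10 * m)
          positivity
        rw [← Real.sqrt_sq hpos]
        exact Real.sqrt_le_sqrt hb)
  have h3 := key s hs 0 (by omega)
  rw [e2] at h3
  have hH0 : H D (7 / 10) 0 = 1 := rfl
  rw [hH0, mul_one] at h3
  exact h3

/-- The coefficient bound. -/
theorem coef_bound : ∃ m₀ : ℕ, ∀ m : ℕ, m₀ ≤ m → ∀ (d n : ℕ) [NeZero d], 3 ≤ d →
    130 * (m : ℝ) ≤ (d : ℝ) - 2 → (d : ℝ) - 2 ≤ 130 * m + 130 → 20 * m ≤ n →
    ∀ (g : ℝ → ℝ), Measurable g → (∀ t, 0 ≤ g t) → ∀ B : ℝ, 1 ≤ B → (∀ t, g t ≤ B) →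
      (∀ t, g (-t) = g t) →
      (∀ f : ℝ[X], f.natDegree ≤ n → ∫ t, g t * f.eval t ∂(den d) = ∫ t, f.eval t ∂(den d)) →
      ∀ k, 1 ≤ k → |∫ t, g t * (Pool.Agent.Helper47.KP.PP d k).eval t ∂(den d)| ≤
        B * ((2 : ℝ) ^ (-(0.38 * (d : ℝ))) / 4) := by
  obtain ⟨m1, hm1⟩ := Pool.Agent.Helper92.TP.num1'
  obtain ⟨m2, hm2⟩ := num2
  refine ⟨max 425 (max m1 m2), ?_⟩
  intro m hm d n _ hd h1 h2 hn g hg h0 B hB1 hB he hex k hk1
  have hm425 : 425 ≤ m := le_trans (le_max_left _ _) hm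
  have hmm1 : m1 ≤ m := le_trans (le_trans (le_max_left _ _) (le_max_right _ _)) hm
  have hmm2 : m2 ≤ m := le_trans (le_trans (le_max_right _ _) (le_max_right _ _)) hm
  have hmR : (425 : ℝ) ≤ m := by exact_mod_cast hm425
  set D := (d : ℝ) - 2 with hDdef
  have hD : 10000 ≤ D := by nlinarith
  have hD0 : 0 < D := by linarith
  have hB0 : 0 ≤ B := by linarith
  set E := (2 : ℝ) ^ (-(0.38 * (d : ℝ))) with hE
  have hE0 : 0 < E := by positivity
  have hdD : (d : ℝ) = D + 2 := by rw [hDdef]; ring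
  have hEE : (2 : ℝ) ^ (-(0.76 * (130 * (m : ℝ) + 132))) ≤ E ^ 2 := by
    rw [hE, ← Real.rpow_natCast, ← Real.rpow_mul (by norm_num)]
    apply Real.rpow_le_rpow_of_exponent_le (by norm_num)
    push_cast
    rw [hdD]
    linarith
  rw [← Nm_zero]
  by_cases c1 : k ≤ n
  · rw [Nm_exact hd hex (by omega), if_neg (by omega), abs_zero]
    positivity
  by_cases c3 : Odd k
  · rw [Nm_odd hd he (by simpa using c3), abs_zero]
    positivity
  rw [Nat.not_odd_iff_even] at c3
  have hfin : ∀ x : ℝ, 0 ≤ x → (x * 4) ^ 2 ≤ E ^ 2 → x ≤ E / 4 := by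
    intro x hx h
    have := abs_le_of_sq_le_sq h hE0.le
    have := le_abs_self (x * 4)
    linarith [abs_le_of_sq_le_sq h hE0.le]
  by_cases c4 : k ≤ 26 * m
  · obtain ⟨r, hr⟩ := c3
    obtain ⟨s, hs⟩ : ∃ s, k = 10 * m - 2 + 2 * s := ⟨r - (5 * m - 1), by omega⟩
    have hs1 : 5 * m ≤ s := by omega
    have hs2 : s ≤ 8 * m + 1 := by omega
    have hch := coef_low hd hm425 h1 h2 hg h0 hB1 hB he hn hex s hs2
    rw [← hs] at hch
    refine hch.trans (mul_le_mul_of_nonneg_left ?_ hB0)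
    apply hfin _ (Us_pos hD0 s).le
    refine le_trans ?_ hEE
    have hnn := nn_bound (D := D) (m := m) (by omega) h1
    have hH := H_bound hm425 h1 h2
    have hS := S_prod (D := D) (m := m) (by omega) h1 s hs1 hs2
    have hnn0 := nn_pos hD0 (10 * m - 2)
    have hH0 := H_pos hD0 (show (0 : ℝ) < 7 / 10 by norm_num) (10 * m - 2)
    refine le_trans ?_ (hm1 m hmm1)
    rw [mul_pow, mul_comm]
    have h16 : (4 : ℝ) ^ 2 ≤ (10 ^ 8 * (m : ℝ) ^ 4) ^ 2 := by
      apply pow_le_pow_left₀ (by norm_num)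
      have : (1 : ℝ) ≤ (m : ℝ) ^ 4 := one_le_pow₀ (by linarith)
      linarith
    apply mul_le_mul h16 _ (sq_nonneg _) (by positivity)
    unfold Us
    rw [mul_pow, div_pow]
    apply mul_le_mul _ hS (sq_nonneg _) (by positivity)
    apply div_le_div₀ (by positivity) _ (by positivity) hH
    exact pow_le_pow_left₀ hnn0.le hnn 2
  · have hk26 : 26 * m ≤ k := by omega
    have hcs := abs_Nm_le hd hg h0 hB 0 k
    refine hcs.trans (mul_le_mul_of_nonneg_left ?_ hB0)
    apply hfin _ (Real.sqrt_nonneg _)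
    refine le_trans ?_ hEE
    have hn0 : nn ((d : ℝ) - 2) 0 = 1 := rfl
    rw [mul_pow, hn0, one_mul, Real.sq_sqrt (nn_pos (by rw [← hDdef]; exact hD0) k).le]
    have ha : nn D k ≤ nn D (26 * m) := nn_anti hD0 hk26
    have hb := nn_le_PP hD0 (K := 10 * m - 1) (by omega) (26 * m) (by omega)
    have e2 : 10 * m - 1 - 1 = 10 * m - 2 := by omega
    rw [e2] at hb
    have hPB := PP_bound (D := D) (m := m) (by omega) h1
    have hc : ((10 * m - 1 : ℕ) : ℝ) = 10 * m - 1 := by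
      have : 1 ≤ 10 * m := by omega
      push_cast [Nat.cast_sub this]; ring
    rw [hc] at hb
    have hn26 := nn_pos hD0 (26 * m)
    have hc26 : (((26 * m : ℕ) : ℝ) + D) ≤ 156 * m + 130 := by push_cast; linarith
    have hP0 := PP_nonneg hD0 (10 * m - 1) (26 * m)
    have hnn0 := nn_pos hD0 (10 * m - 2)
    have hc3 : nn D (26 * m) ≤ (156 * (m : ℝ) + 130) *
        (20 * (156 * m + 1) * ((5 : ℝ) ^ 130 / 6 ^ 156) ^ m) := by
      have t1 : nn D (26 * m) ≤ nn D (26 * m) * (10 * (m : ℝ) - 1 - 1 + D) := by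
        apply le_mul_of_one_le_right hn26.le
        linarith
      refine t1.trans (hb.trans ?_)
      apply mul_le_mul hc26 hPB (by positivity) (by positivity)
    refine le_trans ?_ (hm2 m hmm2)
    have hq : 0 ≤ (20 * (156 * (m : ℝ) + 1) * ((5 : ℝ) ^ 130 / 6 ^ 156) ^ m) := by positivity
    nlinarith [ha, hc3, hq]

end Pool.Agent.Helper12.KB
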