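import Pool.Agent.Helper47.KP.Dens

/-!
An even density with exact moments: the density of `Helper47.KP.Dens` and its reflection.
-/

set_option autoImplicit false

open MeasureTheory Set Metric Polynomial
open scoped Real

namespace Pool.Agent.Helper12.KB

open Pool.Agent.Helper47.KP

variable {d : ℕ}

lemma wt_neg (D : ℕ) (t : ℝ) : wt D (-t) = wt D t := by
  unfold wt
  rw [neg_sq]

lemma integral_den_neg (f : ℝ → ℝ) : ∫ t, f (-t) ∂(den d) = ∫ t, f t ∂(den d) := by
  rw [integral_den, integral_den]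
  congr 1
  have h := intervalIntegral.integral_comp_neg (a := (-1 : ℝ)) (b := 1)
    (fun t => f t * wt (d - 3) t)
  simp only [wt_neg, neg_neg] at h
  exact h

lemma integrable_bd {f : ℝ → ℝ} (hf : Measurable f) {C : ℝ} (h : ∀ t ∈ Icc (-1 : ℝ) 1, |f t| ≤ C) :
    Integrable f (den d) := by
  refine Integrable.of_bound hf.aestronglyMeasurable C ?_
  filter_upwards [den_supp] with t ht
  exact h t ht

lemma poly_bd (p : ℝ[X]) : ∃ M : ℝ, 0 ≤ M ∧ ∀ t ∈ Icc (-1 : ℝ) 1, |p.eval t| ≤ M := by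
  obtain ⟨M, hM⟩ := (isCompact_Icc (a := (-1 : ℝ)) (b := 1)).image p.continuous
    |>.isBounded.exists_norm_le
  have hM' : ∀ t ∈ Icc (-1 : ℝ) 1, |p.eval t| ≤ M := fun t ht => hM _ ⟨t, ht, rfl⟩
  exact ⟨M, (abs_nonneg _).trans (hM' 0 ⟨by norm_num, by norm_num⟩), hM'⟩

lemma integrable_mul_poly {g : ℝ → ℝ} (hg : Measurable g) {C : ℝ} (hC : ∀ t, |g t| ≤ C) (p : ℝ[X]) :
    Integrable (fun t => g t * p.eval t) (den d) := by
  obtain ⟨M, hM0, hM⟩ := poly_bd p
  refine integrable_bd (hg.mul p.continuous.measurable) (C := C * M) ?_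
  intro t ht
  rw [abs_mul]
  exact mul_le_mul (hC t) (hM t ht) (abs_nonneg _) ((abs_nonneg _).trans (hC t))

/-- the exact density before reflection -/
theorem exists_density1 {A b : ℝ} (h : Par A b) (hb2 : b < 1 / 2) {β : ℝ}
    (hβ : β < 2 / (A ^ 2 - 1)) :
    ∃ C θ : ℝ, 0 < C ∧ 0 < θ ∧ θ < 1 ∧ ∀ (d n : ℕ) [NeZero d], 4 ≤ d →
      (n : ℝ) ≤ β * ((d - 3 : ℕ) : ℝ) →
      ∃ a : ℝ → ℝ, Continuous a ∧ (∀ t, |a t| ≤ C * θ ^ (d - 3)) ∧
        ∀ f : ℝ[X], f.natDegree ≤ n →
          ∫ t, dens b a t * f.eval t ∂(den d) = ∫ t, f.eval t ∂(den d) := by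
  obtain ⟨C, θ, hC, hθ0, hθ1, hrem⟩ := remez_point h hb2 hβ
  refine ⟨C, θ, hC, hθ0, hθ1, ?_⟩
  intro d n _ hd hn
  have hd3 : 3 ≤ d := by omega
  have hb0 := h.b_pos
  set D := d - 3 with hD
  have hw := continuous_wt D
  set r := C * θ ^ D with hr
  have hr0 : 0 < r := by positivity
  have hrem' : ∀ f : ℝ[X], f.natDegree ≤ n → ∫ t in (1 / 2 : ℝ)..1, f.eval t * wt D t ≤
      r / 2 * ∫ t in (-b)..b, |f.eval t| * wt D t := by
    intro f hf
    have h1 := hrem D n f (by omega) hn hf
    have h2 : ∫ t in (1 / 2 : ℝ)..1, f.eval t * wt D t ≤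
        ∫ _t in (1 / 2 : ℝ)..1, r * ∫ t in (-b)..b, |f.eval t| * wt D t := by
      apply intervalIntegral.integral_mono_on (by norm_num)
      · exact (f.continuous.mul hw).intervalIntegrable _ _
      · exact intervalIntegrable_const
      · intro t ht
        refine le_trans ?_ (h1 t ht.1 ht.2)
        exact mul_le_mul_of_nonneg_right (le_abs_self _) (wt_nonneg _ _)
    refine h2.trans (le_of_eq ?_)
    rw [intervalIntegral.integral_const, smul_eq_mul]
    ring
  obtain ⟨a, hac, har, haf⟩ := exists_dual hb0 (by linarith) (by positivity)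
    (show r / 2 < r by linarith) hrem'
  refine ⟨a, hac, har, ?_⟩
  intro f hf
  rw [integral_dens hb0 hb2 hac f.continuous, haf f hf, integral_den]
  congr 1
  exact intervalIntegral.integral_add_adjacent_intervals
    ((f.continuous.mul hw).intervalIntegrable _ _) ((f.continuous.mul hw).intervalIntegrable _ _)

/-- existence of the even density -/
theorem exists_density2 {A b : ℝ} (h : Par A b) (hb2 : b < 1 / 2) {β : ℝ}
    (hβ : β < 2 / (A ^ 2 - 1)) :
    ∃ C θ : ℝ, 0 < C ∧ 0 < θ ∧ θ < 1 ∧ ∀ (d n : ℕ) [NeZero d], 4 ≤ d →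
      (n : ℝ) ≤ β * ((d - 3 : ℕ) : ℝ) → C * θ ^ (d - 3) ≤ 1 →
      ∃ g : ℝ → ℝ, Measurable g ∧ (∀ t, 0 ≤ g t) ∧ (∀ t, g t ≤ 1 + C * θ ^ (d - 3)) ∧
        (∀ t, 1 / 2 < t → g t = 0) ∧ (∀ t, g (-t) = g t) ∧
        ∀ f : ℝ[X], f.natDegree ≤ n →
          ∫ t, g t * f.eval t ∂(den d) = ∫ t, f.eval t ∂(den d) := by
  obtain ⟨C, θ, hC, hθ0, hθ1, H⟩ := exists_density1 h hb2 hβ
  refine ⟨2 * C, θ, by positivity, hθ0, hθ1, ?_⟩
  intro d n _ hd hn hr1
  obtain ⟨a, hac, har, haf⟩ := H d n hd hn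
  set r := C * θ ^ (d - 3) with hr
  have hr0 : 0 < r := by positivity
  have e2r : 2 * C * θ ^ (d - 3) = 2 * r := by rw [hr]; ring
  rw [e2r] at hr1 ⊢
  have hm := measurable_dens b hac.measurable
  have hm' : Measurable (fun t => dens b a (-t)) := hm.comp measurable_neg
  have hb0 := h.b_pos
  -- pointwise description
  have hval : ∀ t, (1 / 2 < t ∨ t < -(1 / 2)) → dens b a t + dens b a (-t) - 1 = 0 := by
    intro t ht
    rcases ht with ht | ht
    · rw [dens_of_gt hb2 a ht]
      unfold dens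
      rw [indicator_of_mem (show -t ∈ Iic (1 / 2 : ℝ) from by rw [mem_Iic]; linarith),
        indicator_of_notMem (show -t ∉ Ioc (-b) b from by
          intro h; linarith [h.1])]
      ring
    · rw [dens_of_gt hb2 a (show 1 / 2 < -t by linarith)]
      unfold dens
      rw [indicator_of_mem (show t ∈ Iic (1 / 2 : ℝ) from by rw [mem_Iic]; linarith),
        indicator_of_notMem (show t ∉ Ioc (-b) b from by
          intro h; linarith [h.1])]
      ring
  have hin : ∀ t, t ≤ 1 / 2 → |dens b a t - 1| ≤ r := by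
    intro t ht
    unfold dens
    rw [indicator_of_mem (show t ∈ Iic (1 / 2 : ℝ) from ht), add_sub_cancel_left]
    by_cases h : t ∈ Ioc (-b) b
    · rw [indicator_of_mem h]; exact har t
    · rw [indicator_of_notMem h, abs_zero]; exact hr0.le
  have hbd : ∀ t, 0 ≤ dens b a t + dens b a (-t) - 1 ∧
      dens b a t + dens b a (-t) - 1 ≤ 1 + 2 * r := by
    intro t
    by_cases h1 : 1 / 2 < t ∨ t < -(1 / 2)
    · rw [hval t h1]
      exact ⟨le_rfl, by linarith⟩
    · push Not at h1
      have h2 := abs_le.1 (hin t h1.1)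
      have h3 := abs_le.1 (hin (-t) (by linarith [h1.2]))
      exact ⟨by linarith [h2.1, h3.1], by linarith [h2.2, h3.2]⟩
  have hdb : ∀ t, |dens b a t| ≤ 1 + r := by
    intro t
    by_cases h1 : 1 / 2 < t
    · rw [dens_of_gt hb2 a h1, abs_zero]; linarith
    · push Not at h1
      have h2 := abs_le.1 (hin t h1)
      rw [abs_le]
      exact ⟨by linarith [h2.1], by linarith [h2.2]⟩
  refine ⟨fun t => dens b a t + dens b a (-t) - 1, (hm.add hm').sub_const 1, fun t => (hbd t).1,
    fun t => (hbd t).2, fun t ht => hval t (Or.inl ht), fun t => ?_, ?_⟩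
  · simp only [neg_neg]; ring
  · intro f hf
    have i1 := integrable_mul_poly (d := d) hm hdb f
    have i2 := integrable_mul_poly (d := d) hm' (fun t => hdb (-t)) f
    have i3 : Integrable (fun t => f.eval t) (den d) := by
      obtain ⟨M, hM0, hM⟩ := poly_bd f
      exact integrable_bd f.continuous.measurable hM
    have e1 : ∫ t, (dens b a t + dens b a (-t) - 1) * f.eval t ∂(den d) =
        ∫ t, dens b a t * f.eval t ∂(den d) + ∫ t, dens b a (-t) * f.eval t ∂(den d) -
          ∫ t, f.eval t ∂(den d) := by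
      have e0 : ∫ t, (dens b a t * f.eval t + dens b a (-t) * f.eval t) ∂(den d) =
          ∫ t, dens b a t * f.eval t ∂(den d) + ∫ t, dens b a (-t) * f.eval t ∂(den d) :=
        integral_add i1 i2
      have i12 : Integrable (fun t => dens b a t * f.eval t + dens b a (-t) * f.eval t) (den d) :=
        i1.add i2
      rw [← e0, ← integral_sub i12 i3]
      congr 1; funext t; ring
    have e2 : ∫ t, dens b a (-t) * f.eval t ∂(den d) =
        ∫ t, dens b a t * (f.comp (-X)).eval t ∂(den d) := by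
      rw [← integral_den_neg (fun t => dens b a t * (f.comp (-X)).eval t)]
      congr 1; funext t
      simp [eval_comp]
    have hf' : (f.comp (-X)).natDegree ≤ n := by
      rw [natDegree_comp]
      have : (-X : ℝ[X]).natDegree = 1 := by simp
      rw [this, mul_one]; exact hf
    have e3 : ∫ t, (f.comp (-X)).eval t ∂(den d) = ∫ t, f.eval t ∂(den d) := by
      rw [← integral_den_neg (fun t => f.eval t)]
      congr 1; funext t
      simp [eval_comp]
    show ∫ t, (dens b a t + dens b a (-t) - 1) * f.eval t ∂(den d) = _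
    rw [e1, haf f hf, e2, haf _ hf', e3]
    ring

end Pool.Agent.Helper12.KB
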