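import Pool.Agent.Helper12.KB.Coef2
import Pool.Agent.Helper47.KP.Bound

/-!
The `k`-point bounds, `2 ≤ k ≤ 2^(δ d)`, are at least `2^(0.38 d)`.
-/

set_option autoImplicit false

open MeasureTheory Set Metric Polynomial Filter
open scoped Real Topology

namespace Pool.Agent.Helper12.KB

open Pool.Agent.Helper47.KP (Sph IsFeasible Par den kpoint_bound)

theorem kpoint_barrier38 : ∃ δ : ℝ, 0 < δ ∧ ∃ d₀ : ℕ, ∀ d : ℕ, d₀ ≤ d → ∀ k : ℕ, 2 ≤ k →
    (k : ℝ) ≤ 2 ^ (δ * d) → ∀ (T : Finset (Sph d) → Sph d → Sph d → ℝ) (lam : ℝ),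
      IsFeasible d k T lam → (2 : ℝ) ^ ((0.38 : ℝ) * d) ≤ lam := by
  -- the parameters
  set A : ℝ := 373209 / 100000 with hA
  set b : ℝ := 2 * A / (A ^ 2 + 1) with hb
  have hPar : Par A b := ⟨by rw [hA]; norm_num, by rw [hb]; field_simp⟩
  have hb2 : b < 1 / 2 := by rw [hb, hA]; norm_num
  have hβ : (28 / 181 : ℝ) < 2 / (A ^ 2 - 1) := by rw [hA]; norm_num
  obtain ⟨C, θ, hC, hθ0, hθ1, hdens⟩ := exists_density2 hPar hb2 hβ
  obtain ⟨m₀, hcoef⟩ := coef_bound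
  set ρ := Real.sqrt θ with hρ
  have hρ0 : 0 < ρ := Real.sqrt_pos.2 hθ0
  have hρ1 : ρ < 1 := by rw [hρ, Real.sqrt_lt' one_pos]; simpa using hθ1
  have hρ2 : ρ ^ 2 = θ := Real.sq_sqrt hθ0.le
  have hδ : 0 < Real.logb 2 ρ⁻¹ := Real.logb_pos (by norm_num) ((one_lt_inv₀ hρ0).2 hρ1)
  refine ⟨Real.logb 2 ρ⁻¹, hδ, ?_⟩
  have hpow : ∀ d : ℕ, (2 : ℝ) ^ (Real.logb 2 ρ⁻¹ * d) = (ρ⁻¹) ^ d := by
    intro d
    rw [Real.rpow_mul (by norm_num), Real.rpow_logb (by norm_num) (by norm_num) (by positivity),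
      Real.rpow_natCast]
  have hlim : Tendsto (fun d : ℕ => C * ρ ^ (d - 6)) atTop (𝓝 0) := by
    have h1 := (tendsto_pow_atTop_nhds_zero_of_lt_one hρ0.le hρ1).comp (tendsto_sub_atTop_nat 6)
    simpa using h1.const_mul C
  have hl2 : 0 < Real.log 2 := Real.log_pos (by norm_num)
  obtain ⟨d₂, hd₂⟩ := eventually_atTop.1 (hlim.eventually (gt_mem_nhds hl2))
  refine ⟨max (max (130 * m₀ + 132) d₂) 40000, fun d hd k hk hkd T lam hf => ?_⟩
  have hdd1 : 130 * m₀ + 132 ≤ d := le_trans (le_trans (le_max_left _ _) (le_max_left _ _)) hd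
  have hdd2 : d₂ ≤ d := le_trans (le_trans (le_max_right _ _) (le_max_left _ _)) hd
  have hd4 : 40000 ≤ d := le_trans (le_max_right _ _) hd
  have : NeZero d := ⟨by omega⟩
  rw [hpow] at hkd
  set r := C * θ ^ (d - 3) with hr
  have hr0 : 0 < r := by positivity
  have hrk : r * k ≤ Real.log 2 := by
    calc r * k ≤ r * (ρ⁻¹) ^ d := by gcongr
      _ = C * ρ ^ (d - 6) := by
        rw [hr, ← hρ2, ← pow_mul]
        obtain ⟨e, rfl⟩ : ∃ e, d = e + 6 := ⟨d - 6, by omega⟩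
        have e1 : 2 * (e + 6 - 3) = (e + 6) + (e + 6 - 6) := by omega
        rw [e1, pow_add, inv_pow]
        field_simp
      _ ≤ Real.log 2 := (hd₂ d hdd2).le
  have hk' : (2 : ℝ) ≤ k := by exact_mod_cast hk
  have hlog2 : Real.log 2 < 1 := by
    have := Real.log_two_lt_d9
    linarith
  have hr1 : r ≤ 1 := by nlinarith
  set n := 28 * ((d - 3) / 181) with hn
  have hnβ : (n : ℝ) ≤ 28 / 181 * ((d - 3 : ℕ) : ℝ) := by
    have h1 : 181 * ((d - 3) / 181) ≤ d - 3 := Nat.mul_div_le _ _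
    have h2 : (181 : ℝ) * (((d - 3) / 181 : ℕ) : ℝ) ≤ ((d - 3 : ℕ) : ℝ) := by exact_mod_cast h1
    rw [hn]
    push_cast
    linarith
  obtain ⟨g, hgm, hg0, hg1, hgz, hge, hgex⟩ := hdens d n (by omega) hnβ hr1
  -- the number `m`
  set m := (d - 2) / 130 with hm
  have hmm : m₀ ≤ m := by rw [hm]; omega
  have hmn : 20 * m ≤ n := by rw [hm, hn]; omega
  have hc : ((d - 2 : ℕ) : ℝ) = (d : ℝ) - 2 := by
    rw [Nat.cast_sub (by omega)]; norm_num
  have h1 : 130 * (m : ℝ) ≤ (d : ℝ) - 2 := by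
    have h := Nat.mul_div_le (d - 2) 130
    rw [← hm] at h
    have h' : ((130 * m : ℕ) : ℝ) ≤ ((d - 2 : ℕ) : ℝ) := by exact_mod_cast h
    rw [hc] at h'
    push_cast at h'
    exact h'
  have h2 : (d : ℝ) - 2 ≤ 130 * m + 130 := by
    have h := Nat.lt_mul_div_succ (d - 2) (show 0 < 130 by norm_num)
    rw [← hm] at h
    have h' : ((d - 2 : ℕ) : ℝ) ≤ ((130 * (m + 1) : ℕ) : ℝ) := by exact_mod_cast h.le
    rw [hc] at h'
    push_cast at h'
    linarith
  have hcf := hcoef m hmm d n (by omega) h1 h2 hmn g hgm hg0 (1 + r) (by linarith) hg1 hge hgex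
  set E := (2 : ℝ) ^ (-(0.38 * (d : ℝ))) with hE
  have hE0 : 0 < E := by positivity
  set N : ℝ := 2 ^ ((0.38 : ℝ) * d) with hN
  have hN0 : 0 < N := by positivity
  have hEN : E * N = 1 := by
    rw [hE, hN, ← Real.rpow_add (by norm_num), neg_add_cancel, Real.rpow_zero]
  have hexp : (1 + r) ^ (k - 2) ≤ 2 := by
    calc (1 + r) ^ (k - 2) ≤ (1 + r) ^ k := pow_le_pow_right₀ (by linarith) (by omega)
      _ ≤ (Real.exp r) ^ k := by
        gcongr
        have := Real.add_one_le_exp r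
        linarith
      _ = Real.exp (r * k) := by rw [← Real.exp_nat_mul, mul_comm]
      _ ≤ Real.exp (Real.log 2) := Real.exp_le_exp.2 hrk
      _ = 2 := Real.exp_log (by norm_num)
  have hI : ∫ t, g t ∂(den d) = 1 := by
    have h := hgex 1 (by simp)
    simp only [eval_one, mul_one] at h
    rw [h, Pool.Agent.Helper47.KP.integral_den]
    simp only [one_mul]
    unfold Pool.Agent.Helper47.KP.cst
    exact inv_mul_cancel₀ (Pool.Agent.Helper47.KP.integral_wt_pos _).ne'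
  have hεB : (1 + r) * (E / 4) * (N * (1 + r) ^ (k - 2)) ≤ 1 := by
    have ha : (1 + r) * (E / 4) ≤ 2 * (E / 4) := mul_le_mul_of_nonneg_right (by linarith) (by positivity)
    have hb : N * (1 + r) ^ (k - 2) ≤ N * 2 := mul_le_mul_of_nonneg_left hexp hN0.le
    calc (1 + r) * (E / 4) * (N * (1 + r) ^ (k - 2)) ≤ 2 * (E / 4) * (N * 2) :=
          mul_le_mul ha hb (by positivity) (by positivity)
      _ = E * N := by ring
      _ = 1 := hEN
      _ ≤ 1 := le_rfl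
  exact kpoint_bound (by omega) hk hf hgm hg0 hr0.le hg1 hI hgz (by positivity)
    (fun j hj => by
      have := hcf j hj
      rw [abs_le] at this
      exact this.1) hN0 hεB

end Pool.Agent.Helper12.KB
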