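import Pool.Agent.Helper12.KB.Chain
import Pool.Agent.Helper12.KB.Dens

/-!
Mixed moments of an even bounded density with exact moments up to degree `n`.
-/

set_option autoImplicit false

open MeasureTheory Set Metric Polynomial
open scoped Real

namespace Pool.Agent.Helper12.KB

open Pool.Agent.Helper47.KP
open Pool.Agent.Helper92.LP (cA cB cc nn G H G_mul2 cA_pos cB_nonneg nn_pos)

variable {d : ℕ}

lemma eval_PP (hd : 3 ≤ d) (t : ℝ) : ∀ k, (PP d k).eval t = G ((d : ℝ) - 2) t k := by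
  have hd' : (3 : ℝ) ≤ d := by exact_mod_cast hd
  have main : ∀ k, (PP d k).eval t = G ((d : ℝ) - 2) t k ∧
      (PP d (k + 1)).eval t = G ((d : ℝ) - 2) t (k + 1) := by
    intro k
    induction k with
    | zero => exact ⟨by simp [PP_zero, G], by simp [PP_one, G]⟩
    | succ k ih =>
      refine ⟨ih.2, ?_⟩
      have e1 := PP_rec hd k t
      have e2 : G ((d : ℝ) - 2) t (k + 1 + 1)
          = (t * G ((d : ℝ) - 2) t (k + 1) - cB ((d : ℝ) - 2) (k + 1) * G ((d : ℝ) - 2) t k)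
            / cA ((d : ℝ) - 2) (k + 1) := rfl
      rw [ih.1, ih.2] at e1
      rw [e2]
      have hk : (0 : ℝ) ≤ k := Nat.cast_nonneg k
      unfold cA cB
      push_cast
      have h1 : (k : ℝ) + d - 1 ≠ 0 := by
        have : 0 < (k : ℝ) + d - 1 := by linarith
        exact this.ne'
      have h2 : 2 * ((k : ℝ) + 1) + (d - 2) ≠ 0 := by
        have : 0 < 2 * ((k : ℝ) + 1) + (d - 2) := by linarith
        exact this.ne'
      have h3 : (k : ℝ) + 1 + (d - 2) ≠ 0 := by
        have : 0 < (k : ℝ) + 1 + (d - 2) := by linarith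
        exact this.ne'
      rw [eq_div_iff (by
        apply div_ne_zero h3 h2)]
      have h4 : (PP d (k + 1 + 1)).eval t = ((2 * (k : ℝ) + d) * (t * G ((d : ℝ) - 2) t (k + 1))
          - (k + 1) * G ((d : ℝ) - 2) t k) / (k + d - 1) := by
        rw [eq_div_iff h1, ← e1]; ring
      rw [h4]
      field_simp
      ring
  exact fun k => (main k).1

/-- the linear functional -/
noncomputable def L (d : ℕ) (g : ℝ → ℝ) (p : ℝ[X]) : ℝ := ∫ t, g t * p.eval t ∂(den d)

/-- mixed moments -/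
noncomputable def Nm (d : ℕ) (g : ℝ → ℝ) (j k : ℕ) : ℝ := L d g (PP d j * PP d k)

lemma L_add {g : ℝ → ℝ} (hg : Measurable g) {B : ℝ} (hB : ∀ t, |g t| ≤ B) (p q : ℝ[X]) :
    L d g (p + q) = L d g p + L d g q := by
  unfold L
  rw [← integral_add (integrable_mul_poly hg hB p) (integrable_mul_poly hg hB q)]
  congr 1; funext t
  rw [eval_add]; ring

lemma L_C_mul (g : ℝ → ℝ) (c : ℝ) (p : ℝ[X]) : L d g (C c * p) = c * L d g p := by
  unfold L
  rw [← integral_const_mul]
  congr 1; funext t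
  rw [eval_mul, eval_C]; ring

lemma Nm_comm (g : ℝ → ℝ) (j k : ℕ) : Nm d g j k = Nm d g k j := by
  unfold Nm
  rw [mul_comm]

lemma Nm_zero (g : ℝ → ℝ) (k : ℕ) : Nm d g 0 k = ∫ t, g t * (PP d k).eval t ∂(den d) := by
  unfold Nm L
  rw [PP_zero, one_mul]

/-- the two step wave equation -/
lemma Nm_wave2 (hd : 3 ≤ d) {g : ℝ → ℝ} (hg : Measurable g) {B : ℝ} (hB : ∀ t, |g t| ≤ B) :
    Wave2 ((d : ℝ) - 2) (Nm d g) := by
  intro j k
  have hd' : (3 : ℝ) ≤ d := by exact_mod_cast hd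
  have hD : 0 < (d : ℝ) - 2 := by linarith
  unfold Nm
  simp only [← L_C_mul]
  rw [← L_add hg hB, ← L_add hg hB, ← L_add hg hB, ← L_add hg hB]
  congr 1
  apply Polynomial.funext
  intro t
  simp only [eval_add, eval_mul, eval_C, eval_PP hd]
  have h1 := G_mul2 hD t j
  have h2 := G_mul2 hD t k
  calc _ = G ((d : ℝ) - 2) t j * (cA ((d : ℝ) - 2) k * cA ((d : ℝ) - 2) (k + 1)
        * G ((d : ℝ) - 2) t (k + 2) + cc ((d : ℝ) - 2) k * G ((d : ℝ) - 2) t k
        + cB ((d : ℝ) - 2) k * cB ((d : ℝ) - 2) (k - 1) * G ((d : ℝ) - 2) t (k - 2)) := by ring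
    _ = G ((d : ℝ) - 2) t k * (cA ((d : ℝ) - 2) j * cA ((d : ℝ) - 2) (j + 1)
        * G ((d : ℝ) - 2) t (j + 2) + cc ((d : ℝ) - 2) j * G ((d : ℝ) - 2) t j
        + cB ((d : ℝ) - 2) j * cB ((d : ℝ) - 2) (j - 1) * G ((d : ℝ) - 2) t (j - 2)) := by
      rw [← h1, ← h2]; ring
    _ = _ := by ring

lemma G_neg (D t : ℝ) : ∀ k, G D (-t) k = (-1) ^ k * G D t k := by
  have main : ∀ k, G D (-t) k = (-1) ^ k * G D t k ∧
      G D (-t) (k + 1) = (-1) ^ (k + 1) * G D t (k + 1) := by
    intro k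
    induction k with
    | zero => exact ⟨by simp [G], by simp [G]⟩
    | succ k ih =>
      refine ⟨ih.2, ?_⟩
      have e1 : G D (-t) (k + 1 + 1) = (-t * G D (-t) (k + 1) - cB D (k + 1) * G D (-t) k)
        / cA D (k + 1) := rfl
      have e2 : G D t (k + 1 + 1) = (t * G D t (k + 1) - cB D (k + 1) * G D t k)
        / cA D (k + 1) := rfl
      rw [e1, e2, ih.1, ih.2]
      ring
  exact fun k => (main k).1

lemma Nm_odd (hd : 3 ≤ d) {g : ℝ → ℝ} (he : ∀ t, g (-t) = g t) {j k : ℕ} (h : Odd (j + k)) :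
    Nm d g j k = 0 := by
  unfold Nm L
  have h1 := integral_den_neg (d := d) (fun t => g t * (PP d j * PP d k).eval t)
  have h2 : ∫ t, g (-t) * (PP d j * PP d k).eval (-t) ∂(den d)
      = - ∫ t, g t * (PP d j * PP d k).eval t ∂(den d) := by
    rw [← integral_neg]
    congr 1; funext t
    rw [he, eval_mul, eval_mul, eval_PP hd, eval_PP hd, eval_PP hd, eval_PP hd, G_neg, G_neg]
    have : (-1 : ℝ) ^ j * (-1) ^ k = -1 := by
      rw [← pow_add]; exact h.neg_one_pow
    calc g t * ((-1) ^ j * G ((d : ℝ) - 2) t j * ((-1) ^ k * G ((d : ℝ) - 2) t k))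
        = ((-1) ^ j * (-1) ^ k) * (g t * (G ((d : ℝ) - 2) t j * G ((d : ℝ) - 2) t k)) := by ring
      _ = _ := by rw [this]; ring
  linarith

lemma int_PP_mul [NeZero d] (hd : 3 ≤ d) (j k : ℕ) :
    ∫ t, (PP d j * PP d k).eval t ∂(den d) = if j = k then nn ((d : ℝ) - 2) j else 0 := by
  obtain ⟨x⟩ := exists_point (d := d)
  have hz : zon x (PP d j * PP d k) = ∫ t, (PP d j * PP d k).eval t ∂(den d) := by
    unfold zon
    exact int_zonal_den hd x (f := fun t => (PP d j * PP d k).eval t)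
      (PP d j * PP d k).continuous.measurable
  rw [← hz]
  by_cases h : j = k
  · subst h
    rw [if_pos rfl]
    have hd' : (3 : ℝ) ≤ d := by exact_mod_cast hd
    clear hz
    induction j with
    | zero => simp [PP_zero, zon_one, nn]
    | succ j ih =>
      have h1 := zon_norm_rec hd x j
      rw [ih] at h1
      have e : nn ((d : ℝ) - 2) (j + 1) = nn ((d : ℝ) - 2) j * cB ((d : ℝ) - 2) (j + 1)
        / cA ((d : ℝ) - 2) j := rfl
      rw [e]
      have hj : (0 : ℝ) ≤ j := Nat.cast_nonneg j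
      have q1 : 0 < (j : ℝ) + d - 2 := by linarith
      have q2 : 0 < 2 * (j : ℝ) + d := by linarith
      have q3 : 0 < 2 * (j : ℝ) + d - 2 := by linarith
      have h2 : zon x (PP d (j + 1) * PP d (j + 1)) =
          ((j + 1) * (2 * j + d - 2)) * nn ((d : ℝ) - 2) j / (((j : ℝ) + d - 2) * (2 * j + d)) := by
        rw [eq_div_iff (mul_pos q1 q2).ne', ← h1]; ring
      rw [h2]
      unfold cA cB
      push_cast
      have r1 : 2 * ((j : ℝ) + 1) + (d - 2) = 2 * j + d := by ring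
      have r2 : (j : ℝ) + (d - 2) = j + d - 2 := by ring
      have r3 : 2 * (j : ℝ) + (d - 2) = 2 * j + d - 2 := by ring
      rw [r1, r2, r3]
      field_simp
  · rw [if_neg h, zon_orth hd h]

/-- exactness -/
lemma Nm_exact [NeZero d] (hd : 3 ≤ d) {g : ℝ → ℝ} {n : ℕ}
    (hex : ∀ f : ℝ[X], f.natDegree ≤ n → ∫ t, g t * f.eval t ∂(den d) = ∫ t, f.eval t ∂(den d))
    {j k : ℕ} (h : j + k ≤ n) : Nm d g j k = if j = k then nn ((d : ℝ) - 2) j else 0 := by
  unfold Nm L
  rw [hex, int_PP_mul hd]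
  refine natDegree_mul_le.trans ?_
  have h1 := natDegree_PP (d := d) j
  have h2 := natDegree_PP (d := d) k
  omega

/-- Cauchy-Schwarz -/
lemma abs_Nm_le [NeZero d] (hd : 3 ≤ d) {g : ℝ → ℝ} (hg : Measurable g) (h0 : ∀ t, 0 ≤ g t)
    {B : ℝ} (hB : ∀ t, g t ≤ B) (j k : ℕ) :
    |Nm d g j k| ≤ B * Real.sqrt (nn ((d : ℝ) - 2) j * nn ((d : ℝ) - 2) k) := by
  have hd' : (3 : ℝ) ≤ d := by exact_mod_cast hd
  have hD : 0 < (d : ℝ) - 2 := by linarith
  have hB0 : 0 ≤ B := (h0 0).trans (hB 0)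
  have hgB : ∀ t, |g t| ≤ B := fun t => by rw [abs_of_nonneg (h0 t)]; exact hB t
  set a := nn ((d : ℝ) - 2) j with ha
  set b := nn ((d : ℝ) - 2) k with hb
  have ha0 : 0 < a := nn_pos hD j
  have hb0 : 0 < b := nn_pos hD k
  set u := Real.sqrt a with hu
  set v := Real.sqrt b with hv
  have hu0 : 0 < u := Real.sqrt_pos.2 ha0
  have hv0 : 0 < v := Real.sqrt_pos.2 hb0
  have hu2 : u ^ 2 = a := Real.sq_sqrt ha0.le
  have hv2 : v ^ 2 = b := Real.sq_sqrt hb0.le
  have hsq : Real.sqrt (a * b) = u * v := Real.sqrt_mul ha0.le b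
  obtain ⟨M1, hM10, hM1⟩ := poly_bd (PP d j * PP d j)
  obtain ⟨M2, hM20, hM2⟩ := poly_bd (PP d k * PP d k)
  have i0 := integrable_mul_poly (d := d) hg hgB (PP d j * PP d k)
  have i1 : Integrable (fun t => (PP d j * PP d j).eval t) (den d) :=
    integrable_bd (PP d j * PP d j).continuous.measurable hM1
  have i2 : Integrable (fun t => (PP d k * PP d k).eval t) (den d) :=
    integrable_bd (PP d k * PP d k).continuous.measurable hM2
  have e1 := int_PP_mul hd j j
  have e2 := int_PP_mul hd k k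
  rw [if_pos rfl] at e1 e2
  unfold Nm L
  rw [hsq]
  refine (abs_integral_le_integral_abs).trans ?_
  have i3 : Integrable (fun t => B * (v / u / 2) * (PP d j * PP d j).eval t
      + B * (u / v / 2) * (PP d k * PP d k).eval t) (den d) :=
    (i1.const_mul _).add (i2.const_mul _)
  have h1 : ∫ t, |g t * (PP d j * PP d k).eval t| ∂(den d) ≤
      ∫ t, (B * (v / u / 2) * (PP d j * PP d j).eval t
      + B * (u / v / 2) * (PP d k * PP d k).eval t) ∂(den d) := by
    apply integral_mono i0.abs i3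
    intro t
    show |g t * (PP d j * PP d k).eval t| ≤ B * (v / u / 2) * (PP d j * PP d j).eval t
      + B * (u / v / 2) * (PP d k * PP d k).eval t
    rw [eval_mul, eval_mul, eval_mul, abs_mul]
    set p := (PP d j).eval t
    set q := (PP d k).eval t
    have h2 : |p * q| ≤ v / u / 2 * (p * p) + u / v / 2 * (q * q) := by
      have h3 : v / u / 2 * (p * p) + u / v / 2 * (q * q) = ((v * p) ^ 2 + (u * q) ^ 2) / (2 * u * v) := by
        field_simp
      rw [h3, le_div_iff₀ (by positivity)]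
      have h4 : |p * q| * (2 * u * v) = 2 * (|v * p| * |u * q|) := by
        rw [abs_mul, abs_mul, abs_mul, abs_of_pos hu0, abs_of_pos hv0]; ring
      rw [h4, ← sq_abs (v * p), ← sq_abs (u * q)]
      nlinarith [sq_nonneg (|v * p| - |u * q|)]
    calc |g t| * |p * q| ≤ B * (v / u / 2 * (p * p) + u / v / 2 * (q * q)) :=
          mul_le_mul (hgB t) h2 (abs_nonneg _) hB0
      _ = _ := by ring
  refine h1.trans (le_of_eq ?_)
  rw [integral_add (i1.const_mul _) (i2.const_mul _), integral_const_mul, integral_const_mul,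
    e1, e2, ← ha, ← hb, ← hu2, ← hv2]
  field_simp
  ring

end Pool.Agent.Helper12.KB
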