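import Pool.Agent.Helper12.KB.Final
import Pool.Agent.Helper47.KP.Sound

/-!
MP_b5f63d_co: no `k`-point semidefinite programming bound with `2 ≤ k ≤ 2^(δ d)` can bound the
kissing number of `ℝ^d` below `2^(0.38 d)`.
-/

set_option autoImplicit false

open scoped RealInnerProductSpace

namespace Pool.Agent.Results.MP_b5f63d_co.SdpBarrier

/-- The unit sphere of `ℝ^d`. -/
abbrev Sph (d : ℕ) : Type := Metric.sphere (0 : EuclideanSpace ℝ (Fin d)) 1

/-- Finite sets of points of the sphere with pairwise inner products at most `1/2`: the points in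
which the balls of a kissing configuration touch the central ball. -/
def Separated {d : ℕ} (S : Finset (Sph d)) : Prop :=
  ∀ x ∈ S, ∀ y ∈ S, x ≠ y → ⟪(x : EuclideanSpace ℝ (Fin d)), y⟫ ≤ 1 / 2

open Classical in
/-- The operator `B_k` of the `k`-point bound:
`B_k T (S) = ∑ T(Q, x, y)` over all `Q ⊆ S` with at most `k - 2` elements and all `x, y ∈ S` with
`Q ∪ {x, y} = S`. -/
noncomputable def opB {d : ℕ} (k : ℕ) (T : Finset (Sph d) → Sph d → Sph d → ℝ)
    (S : Finset (Sph d)) : ℝ :=
  ∑ Q ∈ S.powerset with Q.card + 2 ≤ k, ∑ x ∈ S, ∑ y ∈ S, if Q ∪ {x, y} = S then T Q x y else 0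

open Classical in
/-- Feasible solutions `(T, lam)` of the `k`-point semidefinite program `Δ_k` for the kissing
number in dimension `d` (de Laat, Machado, de Oliveira Filho, Vallentin): for every separated set
`Q` with at most `k - 2` elements `T(Q, ., .)` is a symmetric positive semidefinite kernel on the
sphere, `T(Q, x, y)` is a continuous function of `(Q, x, y)`, and
`B_k T (S) ≤ lam` for `#S = 1`, `≤ -2` for `#S = 2`, `≤ 0` for `3 ≤ #S ≤ k`, for all separated
sets `S`. -/
structure IsFeasible (d k : ℕ) (T : Finset (Sph d) → Sph d → Sph d → ℝ) (lam : ℝ) : Prop where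
  continuous : ∀ q, q + 2 ≤ k → ContinuousOn
    (fun p : (Fin q → Sph d) × Sph d × Sph d => T (Finset.univ.image p.1) p.2.1 p.2.2)
    {p | ∀ a b, a ≠ b → ⟪(p.1 a : EuclideanSpace ℝ (Fin d)), p.1 b⟫ ≤ 1 / 2}
  symm : ∀ Q, Q.card + 2 ≤ k → Separated Q → ∀ x y, T Q x y = T Q y x
  psd : ∀ Q, Q.card + 2 ≤ k → Separated Q → ∀ (n : ℕ) (x : Fin n → Sph d) (c : Fin n → ℝ),
    0 ≤ ∑ i, ∑ j, c i * c j * T Q (x i) (x j)
  le : ∀ S : Finset (Sph d), S.Nonempty → S.card ≤ k → Separated S →
    opB k T S ≤ (if S.card = 1 then lam else 0) - (if S.card = 2 then 2 else 0)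

/-- The bound for the kissing number that a feasible solution proves. -/
def value (lam : ℝ) : ℝ := 1 + lam

lemma IsFeasible.toHelper {d k : ℕ} {T : Finset (Sph d) → Sph d → Sph d → ℝ} {lam : ℝ}
    (hf : IsFeasible d k T lam) : Pool.Agent.Helper47.KP.IsFeasible d k T lam where
  cont := fun q hq => hf.continuous q hq
  symm := hf.symm
  psd := hf.psd
  le := fun S h1 h2 h3 => hf.le S h1 h2 h3

/-- Every feasible solution bounds the number of points of every kissing configuration (known;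
not part of `result`, only a check of the definitions). -/
theorem sound {d k : ℕ} (hk : 2 ≤ k) {T : Finset (Sph d) → Sph d → Sph d → ℝ} {lam : ℝ}
    (hf : IsFeasible d k T lam) {I : Finset (Sph d)} (hI : Separated I) (hne : I.Nonempty) :
    (I.card : ℝ) ≤ value lam :=
  Pool.Agent.Helper47.KP.feasible_bound hk hf.toHelper hI hne

/-- There are `δ > 0` and `d₀` such that for all dimensions `d ≥ d₀` and all `2 ≤ k ≤ 2^(δ d)`
every feasible solution of the `k`-point bound has value at least `2^(0.38 d)`. -/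
theorem result : ∃ δ : ℝ, 0 < δ ∧ ∃ d₀ : ℕ, ∀ d : ℕ, d₀ ≤ d → ∀ k : ℕ, 2 ≤ k →
    (k : ℝ) ≤ 2 ^ (δ * d) → ∀ (T : Finset (Sph d) → Sph d → Sph d → ℝ) (lam : ℝ),
      IsFeasible d k T lam → (2 : ℝ) ^ ((0.38 : ℝ) * d) ≤ value lam := by
  obtain ⟨δ, hδ, d₀, h⟩ := Pool.Agent.Helper12.KB.kpoint_barrier38
  refine ⟨δ, hδ, d₀, fun d hd k hk hkd T lam hf => ?_⟩
  have h2 := h d hd k hk hkd T lam hf.toHelper
  unfold value
  linarith

end Pool.Agent.Results.MP_b5f63d_co.SdpBarrier
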